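import Mathlib

set_option autoImplicit false

/-!
Existence of tangent cosets: common zeros of two forms of the same degree on a plane.
-/

namespace Pool.Agent.X323.FT

open MvPolynomial

section
variable {k : Type*} [Field k] {σ : Type*} {R : Type*} [CommRing R] [Algebra k R]

/-- the restriction of a polynomial to the line `Y ↦ c + Y d` -/
noncomputable def line (c d : σ → R) : MvPolynomial σ k →ₐ[k] Polynomial R :=
  aeval (fun j => Polynomial.C (c j) + Polynomial.C (d j) * Polynomial.X)

theorem line_map {R' : Type*} [CommRing R'] [Algebra k R'] (φ : R →ₐ[k] R') (c d : σ → R)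
    (G : MvPolynomial σ k) :
    (line c d G).map (φ : R →+* R') = line (fun j => φ (c j)) (fun j => φ (d j)) G := by
  induction G using MvPolynomial.induction_on with
  | C a => simp [line, Polynomial.algebraMap_apply]
  | add p q hp hq => rw [map_add, Polynomial.map_add, hp, hq, map_add]
  | mul_X p i hp => rw [map_mul, Polynomial.map_mul, hp, map_mul]; simp [line]

theorem eval_line (c d : σ → k) (G : MvPolynomial σ k) (y : k) :
    (line c d G).eval y = eval (fun j => c j + d j * y) G := by
  induction G using MvPolynomial.induction_on with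
  | C a => simp [line]
  | add p q hp hq => rw [map_add, Polynomial.eval_add, hp, hq, map_add]
  | mul_X p i hp => rw [map_mul, Polynomial.eval_mul, hp, map_mul]; simp [line]

theorem natDegree_line [Fintype σ] (c d : σ → R) {G : MvPolynomial σ k} {e : ℕ} (hG : G.IsHomogeneous e) :
    (line c d G).natDegree ≤ e ∧ (line c d G).coeff e = aeval d G := by
  classical
  have hterm : ∀ (α : σ → ℕ) (s : Finset σ),
      (∏ j ∈ s, (Polynomial.C (c j) + Polynomial.C (d j) * Polynomial.X) ^ α j).natDegree ≤
        ∑ j ∈ s, α j ∧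
      (∏ j ∈ s, (Polynomial.C (c j) + Polynomial.C (d j) * Polynomial.X) ^ α j).coeff
        (∑ j ∈ s, α j) = ∏ j ∈ s, d j ^ α j := by
    intro α s
    induction s using Finset.induction_on with
    | empty => simp
    | insert a s ha ih =>
      rw [Finset.prod_insert ha, Finset.sum_insert ha, Finset.prod_insert ha]
      have h1 : (Polynomial.C (c a) + Polynomial.C (d a) * Polynomial.X : Polynomial R).natDegree
          ≤ 1 := by compute_degree
      have h2 : ((Polynomial.C (c a) + Polynomial.C (d a) * Polynomial.X : Polynomial R) ^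
          α a).natDegree ≤ α a := by
        refine (Polynomial.natDegree_pow_le).trans ?_
        calc α a * _ ≤ α a * 1 := Nat.mul_le_mul_left _ h1
          _ = α a := mul_one _
      have h3 : ((Polynomial.C (c a) + Polynomial.C (d a) * Polynomial.X : Polynomial R) ^
          α a).coeff (α a) = d a ^ α a := by
        have := Polynomial.coeff_pow_of_natDegree_le (m := α a) h1
        rw [mul_one] at this
        rw [this]
        simp
      exact ⟨Polynomial.natDegree_mul_le.trans (Nat.add_le_add h2 ih.1), by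
        rw [Polynomial.coeff_mul_add_eq_of_natDegree_le h2 ih.1, h3, ih.2]⟩
  have hline : line c d G = ∑ α ∈ G.support, Polynomial.C (algebraMap k R (coeff α G)) *
      ∏ j, (Polynomial.C (c j) + Polynomial.C (d j) * Polynomial.X) ^ α j := by
    unfold line
    rw [aeval_def, eval₂_eq']
    refine Finset.sum_congr rfl fun α _ => ?_
    rw [Polynomial.algebraMap_apply]
  have hdeg : ∀ α ∈ G.support, ∑ j, α j = e := by
    intro α hα
    have := hG (mem_support_iff.1 hα)
    rw [← this, Finsupp.weight_apply, Finsupp.sum_fintype _ _ (by simp)]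
    simp
  constructor
  · rw [hline]
    refine Polynomial.natDegree_sum_le_of_forall_le _ _ fun α hα => ?_
    refine (Polynomial.natDegree_C_mul_le _ _).trans ?_
    rw [← hdeg α hα]
    exact (hterm α Finset.univ).1
  · rw [hline, Polynomial.finsetSum_coeff, aeval_def, eval₂_eq']
    refine Finset.sum_congr rfl fun α hα => ?_
    rw [Polynomial.coeff_C_mul]
    congr 1
    have h := (hterm α Finset.univ).2
    rwa [hdeg α hα] at h

/-- the resultant of the restrictions of two forms of degree `e` -/
noncomputable def res (G₁ G₂ : MvPolynomial σ k) (e : ℕ) (c d : σ → R) : R :=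
  Polynomial.resultant (line c d G₁) (line c d G₂) e e

theorem res_map {R' : Type*} [CommRing R'] [Algebra k R'] (φ : R →ₐ[k] R') (c d : σ → R)
    (G₁ G₂ : MvPolynomial σ k) (e : ℕ) :
    φ (res G₁ G₂ e c d) = res G₁ G₂ e (fun j => φ (c j)) (fun j => φ (d j)) := by
  unfold res
  rw [← line_map φ, ← line_map φ, Polynomial.resultant_map_map]
  rfl

end

section
variable {k : Type*} [Field k] {σ : Type*}

theorem eval_smul' {R : Type*} [CommRing R] {G : MvPolynomial σ R} {e : ℕ}
    (hG : G.IsHomogeneous e) (z : R) (x : σ → R) :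
    eval (fun j => z * x j) G = z ^ e * eval x G := by
  rw [eval_eq, eval_eq, Finset.mul_sum]
  refine Finset.sum_congr rfl fun s hs => ?_
  have hdeg : ∑ i ∈ s.support, s i = e := by
    have := hG (mem_support_iff.1 hs)
    rw [← this, Finsupp.weight_apply, Finsupp.sum]
    simp
  rw [Finset.prod_congr rfl fun i _ => mul_pow z (x i) (s i), Finset.prod_mul_distrib,
    Finset.prod_pow_eq_pow_sum, hdeg]
  ring

variable [Fintype σ]

theorem natDegree_line_eq (c d : σ → k) {G : MvPolynomial σ k} {e : ℕ} (hG : G.IsHomogeneous e)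
    (hd : eval d G ≠ 0) : (line c d G).natDegree = e := by
  obtain ⟨h1, h2⟩ := natDegree_line c d hG
  refine le_antisymm h1 (Polynomial.le_natDegree_of_ne_zero ?_)
  rw [h2]
  intro h
  apply hd
  rw [← coe_aeval_eq_eval]
  exact h

theorem res_eq_zero_iff [IsAlgClosed k] (c d : σ → k) {G₁ G₂ : MvPolynomial σ k} {e : ℕ}
    (h₁ : G₁.IsHomogeneous e) (h₂ : G₂.IsHomogeneous e) (hd₁ : eval d G₁ ≠ 0)
    (hd₂ : eval d G₂ ≠ 0) :
    res G₁ G₂ e c d = 0 ↔
      ∃ y, eval (fun j => c j + d j * y) G₁ = 0 ∧ eval (fun j => c j + d j * y) G₂ = 0 := by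
  have e1 := natDegree_line_eq c d h₁ hd₁
  have e2 := natDegree_line_eq c d h₂ hd₂
  have hne : line c d G₁ ≠ 0 := by
    intro h
    have h3 := (natDegree_line c d h₁).2
    rw [h, Polynomial.coeff_zero] at h3
    apply hd₁
    rw [← coe_aeval_eq_eval]
    exact h3.symm
  have h3 : res G₁ G₂ e c d = Polynomial.resultant (line c d G₁) (line c d G₂) := by
    unfold res
    rw [e1, e2]
  rw [h3, Polynomial.resultant_eq_zero_iff]
  constructor
  · rintro ⟨-, h⟩
    rw [Polynomial.isCoprime_iff_aeval_ne_zero_of_isAlgClosed k k] at h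
    push Not at h
    obtain ⟨y, hy1, hy2⟩ := h
    refine ⟨y, ?_, ?_⟩
    · rw [← eval_line]; simpa using hy1
    · rw [← eval_line]; simpa using hy2
  · rintro ⟨y, hy1, hy2⟩
    refine ⟨Or.inl hne, fun ⟨a, b, hab⟩ => ?_⟩
    have h4 := congrArg (Polynomial.eval y) hab
    rw [Polynomial.eval_add, Polynomial.eval_mul, Polynomial.eval_mul, eval_line, eval_line, hy1,
      hy2] at h4
    simp at h4

theorem line_smul [Infinite k] (c d : σ → k) {G : MvPolynomial σ k} {e : ℕ}
    (hG : G.IsHomogeneous e) (hd : eval d G ≠ 0) {z : k} (hz : z ≠ 0) :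
    line (fun j => z * c j) d G = (line c d G).scaleRoots z := by
  apply Polynomial.funext
  intro y
  have h1 := Polynomial.scaleRoots_eval₂_mul (p := line c d G) (RingHom.id k) (y / z) z
  rw [RingHom.id_apply, mul_div_cancel₀ _ hz, natDegree_line_eq c d hG hd] at h1
  have h2 : Polynomial.eval y ((line c d G).scaleRoots z) =
      z ^ e * Polynomial.eval (y / z) (line c d G) := h1
  rw [h2, eval_line, eval_line, ← eval_smul' hG]
  congr 1
  congr 1
  funext j
  field_simp

theorem res_smul [Infinite k] (c d : σ → k) {G₁ G₂ : MvPolynomial σ k} {e : ℕ}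
    (h₁ : G₁.IsHomogeneous e) (h₂ : G₂.IsHomogeneous e) (hd₁ : eval d G₁ ≠ 0)
    (hd₂ : eval d G₂ ≠ 0) {z : k} (hz : z ≠ 0) :
    res G₁ G₂ e (fun j => z * c j) d = z ^ (e * e) * res G₁ G₂ e c d := by
  have e1 := natDegree_line_eq c d h₁ hd₁
  have e2 := natDegree_line_eq c d h₂ hd₂
  have e3 := natDegree_line_eq (fun j => z * c j) d h₁ hd₁
  have e4 := natDegree_line_eq (fun j => z * c j) d h₂ hd₂
  have h := Polynomial.resultant_scaleRoots (line c d G₁) (line c d G₂) z
  rw [← line_smul c d h₁ hd₁ hz, ← line_smul c d h₂ hd₂ hz, e1, e2, e3, e4] at h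
  exact h

/-- Two forms of the same degree `e ≥ 1` have a common zero on the plane of the points
`c + x c' + y d`, if they have no common zero on the line `c = 0` (at the points `c' + y d`, and at
the point `d`). -/
theorem exists_common_zero [IsAlgClosed k] (c c' d : σ → k) {G₁ G₂ : MvPolynomial σ k} {e : ℕ}
    (he : 1 ≤ e)
    (h₁ : G₁.IsHomogeneous e) (h₂ : G₂.IsHomogeneous e) (hd₁ : eval d G₁ ≠ 0)
    (hd₂ : eval d G₂ ≠ 0)
    (hinf : ¬ ∃ y, eval (fun j => c' j + d j * y) G₁ = 0 ∧ eval (fun j => c' j + d j * y) G₂ = 0) :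
    ∃ x y, eval (fun j => c j + c' j * x + d j * y) G₁ = 0 ∧
      eval (fun j => c j + c' j * x + d j * y) G₂ = 0 := by
  have hk : Infinite k := IsAlgClosed.instInfinite
  by_contra hcon
  push Not at hcon
  set R : Polynomial k := res G₁ G₂ e
    (fun j => Polynomial.C (c j) + Polynomial.C (c' j) * Polynomial.X) (fun j => Polynomial.C (d j))
    with hR
  set R' : Polynomial k := res G₁ G₂ e
    (fun j => Polynomial.C (c j) * Polynomial.X + Polynomial.C (c' j))
    (fun j => Polynomial.C (d j)) with hR'
  have hRe : ∀ x, R.eval x = res G₁ G₂ e (fun j => c j + c' j * x) d := by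
    intro x
    have h := res_map (Polynomial.aeval x : Polynomial k →ₐ[k] k)
      (fun j => Polynomial.C (c j) + Polynomial.C (c' j) * Polynomial.X)
      (fun j => Polynomial.C (d j)) G₁ G₂ e
    rw [← hR] at h
    simpa using h
  have hRe' : ∀ x, R'.eval x = res G₁ G₂ e (fun j => c j * x + c' j) d := by
    intro x
    have h := res_map (Polynomial.aeval x : Polynomial k →ₐ[k] k)
      (fun j => Polynomial.C (c j) * Polynomial.X + Polynomial.C (c' j))
      (fun j => Polynomial.C (d j)) G₁ G₂ e
    rw [← hR'] at h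
    simpa using h
  have hRne : ∀ x, R.eval x ≠ 0 := by
    intro x h
    rw [hRe, res_eq_zero_iff _ _ h₁ h₂ hd₁ hd₂] at h
    obtain ⟨y, hy1, hy2⟩ := h
    exact hcon x y hy1 hy2
  have hRdeg : R.degree = 0 := by
    by_contra h
    obtain ⟨x, hx⟩ := IsAlgClosed.exists_root R h
    exact hRne x hx
  obtain ⟨r, hr⟩ : ∃ r, R = Polynomial.C r := ⟨_, Polynomial.eq_C_of_degree_eq_zero hRdeg⟩
  have hR'eq : R' = Polynomial.C r * Polynomial.X ^ (e * e) := by
    apply Polynomial.eq_of_infinite_eval_eq
    refine Set.Infinite.mono (s := ({0}ᶜ : Set k)) ?_ (Set.finite_singleton (0 : k)).infinite_compl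
    intro z hz
    have hz0 : z ≠ 0 := hz
    rw [Set.mem_ofPred_eq, hRe']
    have h1 : (fun j => c j * z + c' j) = fun j => z * (c j + c' j * z⁻¹) := by
      funext j
      field_simp
    rw [h1, res_smul _ d h₁ h₂ hd₁ hd₂ hz0, ← hRe, hr]
    simp
    ring
  have h0 : R'.eval 0 = 0 := by
    rw [hR'eq]
    simp
    right
    omega
  rw [hRe', res_eq_zero_iff _ _ h₁ h₂ hd₁ hd₂] at h0
  apply hinf
  simpa using h0

end

end Pool.Agent.X323.FT
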