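import Pool.Agent.X323.FT.Core
import Pool.Agent.X323.FT.Tan
import Pool.Agent.W231.V.Alg

set_option autoImplicit false

/-!
The degree of the exceptional hypersurface over function fields.
-/

namespace Pool.Agent.X323.FT

open FF MvPolynomial Pool.Agent.X323.TV

/-- The hypersurface `F = 0` does not contain the coordinate vertices `i` and `j`, and it meets the
line joining them transversally. -/
def Trans {k : Type} [Field k] {n : ℕ} (F : MvPolynomial (Fin (n + 1)) k) (i j : Fin (n + 1)) :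
    Prop :=
  ∀ u : Fin (n + 1) → k, u ≠ 0 → (∀ l, l ≠ i → l ≠ j → u l = 0) → eval u F = 0 →
    u i ≠ 0 ∧ u j ≠ 0 ∧ (eval u (pderiv i F) ≠ 0 ∨ eval u (pderiv j F) ≠ 0)

section alg
variable {k : Type} [Field k] {n : ℕ}

theorem euler {F : MvPolynomial (Fin (n + 1)) k} {e : ℕ} (hF : F.IsHomogeneous e)
    (u : Fin (n + 1) → k) : ∑ i, u i * eval u (pderiv i F) = e * eval u F := by
  have h := congrArg (eval u) hF.sum_X_mul_pderiv
  simpa using h

theorem euler_line {F : MvPolynomial (Fin (n + 1)) k} {e : ℕ} (hF : F.IsHomogeneous e)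
    {i j : Fin (n + 1)} (hij : i ≠ j) {u : Fin (n + 1) → k} (hu : ∀ l, l ≠ i → l ≠ j → u l = 0)
    (h0 : eval u F = 0) : u i * eval u (pderiv i F) + u j * eval u (pderiv j F) = 0 := by
  classical
  have h := euler hF u
  rw [h0, mul_zero, ← Finset.sum_subset (Finset.subset_univ ({i, j} : Finset (Fin (n + 1)))),
    Finset.sum_pair hij] at h
  · exact h
  · intro l _ hl
    rw [Finset.mem_insert, Finset.mem_singleton, not_or] at hl
    rw [hu l hl.1 hl.2, zero_mul]

/-- at the zeros of `F` on the line both derivatives are nonzero -/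
theorem Trans.both {F : MvPolynomial (Fin (n + 1)) k} {e : ℕ} (hF : F.IsHomogeneous e)
    {i j : Fin (n + 1)} (hij : i ≠ j) (hT : Trans F i j) {u : Fin (n + 1) → k} (hu0 : u ≠ 0)
    (hu : ∀ l, l ≠ i → l ≠ j → u l = 0) (h0 : eval u F = 0) :
    u i ≠ 0 ∧ u j ≠ 0 ∧ eval u (pderiv i F) ≠ 0 ∧ eval u (pderiv j F) ≠ 0 := by
  obtain ⟨h1, h2, h3⟩ := hT u hu0 hu h0
  have h4 := euler_line hF hij hu h0
  refine ⟨h1, h2, ?_, ?_⟩
  · intro h5
    rw [h5, mul_zero, zero_add] at h4
    rcases h3 with h3 | h3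
    · exact h3 h5
    · exact h3 ((mul_eq_zero.1 h4).resolve_left h2)
  · intro h5
    rw [h5, mul_zero, add_zero] at h4
    rcases h3 with h3 | h3
    · exact h3 ((mul_eq_zero.1 h4).resolve_left h1)
    · exact h3 h5

/-- the form `X_i ∂F/∂X_i` -/
noncomputable def xd (F : MvPolynomial (Fin (n + 1)) k) (i : Fin (n + 1)) :
    MvPolynomial (Fin (n + 1)) k := X i * pderiv i F

theorem xd_hom {F : MvPolynomial (Fin (n + 1)) k} {e : ℕ} (hF : F.IsHomogeneous e) (he : 1 ≤ e)
    (i : Fin (n + 1)) : (xd F i).IsHomogeneous e := by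
  have h := (isHomogeneous_X k i).mul (hF.pderiv (i := i))
  have h1 : 1 + (e - 1) = e := by omega
  rw [h1] at h
  exact h

theorem vertex {F : MvPolynomial (Fin (n + 1)) k} {i j : Fin (n + 1)} (hij : i ≠ j)
    (hT : Trans F i j) :
    eval (Pi.single j (1 : k)) F ≠ 0 ∧ eval (Pi.single i (1 : k)) F ≠ 0 := by
  constructor
  · intro h
    have h1 := (hT (Pi.single j 1) (by simp) (fun l _ h2 => Pi.single_eq_of_ne h2 _) h).1
    rw [Pi.single_eq_of_ne hij] at h1
    exact h1 rfl
  · intro h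
    have h1 := (hT (Pi.single i 1) (by simp) (fun l h2 _ => Pi.single_eq_of_ne h2 _) h).2.1
    rw [Pi.single_eq_of_ne (Ne.symm hij)] at h1
    exact h1 rfl

variable [CharZero k]

theorem xd_vertex {F : MvPolynomial (Fin (n + 1)) k} {e : ℕ} (hF : F.IsHomogeneous e) (he : 1 ≤ e)
    {i : Fin (n + 1)} (h : eval (Pi.single i (1 : k)) F ≠ 0) :
    eval (Pi.single i (1 : k)) (xd F i) ≠ 0 := by
  classical
  have h1 := euler hF (Pi.single i (1 : k))
  rw [Finset.sum_eq_single i] at h1
  · unfold xd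
    rw [map_mul, eval_X, h1]
    refine mul_ne_zero ?_ h
    exact_mod_cast (by omega : e ≠ 0)
  · intro l _ hl
    rw [Pi.single_eq_of_ne hl, zero_mul]
  · intro hl
    exact absurd (Finset.mem_univ i) hl

omit [CharZero k] in
/-- `F` and `X_j ∂F/∂X_j` have no common zero on the line joining the vertices `i` and `j` -/
theorem no_common {F : MvPolynomial (Fin (n + 1)) k} {e : ℕ} (hF : F.IsHomogeneous e)
    {i j : Fin (n + 1)} (hij : i ≠ j) (hT : Trans F i j) {u : Fin (n + 1) → k} (hu0 : u ≠ 0)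
    (hu : ∀ l, l ≠ i → l ≠ j → u l = 0) (h0 : eval u F = 0) : eval u (xd F j) ≠ 0 := by
  obtain ⟨-, h2, -, h4⟩ := hT.both hF hij hu0 hu h0
  unfold xd
  rw [map_mul, eval_X]
  exact mul_ne_zero h2 h4

variable [IsAlgClosed k]

/-- the tangent cosets exist -/
theorem exists_tangent {F : MvPolynomial (Fin (n + 1)) k} {e : ℕ} (hF : F.IsHomogeneous e)
    (he : 1 ≤ e) {i₀ i₁ i₂ : Fin (n + 1)} (h02 : i₀ ≠ i₂) (h12 : i₁ ≠ i₂)
    (hT02 : Trans F i₀ i₂) (hT12 : Trans F i₁ i₂) {a b : ℕ} (hb : 1 ≤ b) (ha : 1 ≤ a)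
    (hab : a < b) (c : Fin (n + 1) → k) (hc1 : c i₁ = 0) (hc2 : c i₂ = 0)
    (g1 : ∀ x, eval (fun j => c j + (Pi.single i₁ (1 : k) : Fin (n + 1) → k) j * x) F = 0 →
      eval (fun j => c j + (Pi.single i₁ (1 : k) : Fin (n + 1) → k) j * x) (xd F i₁) ≠ 0)
    (g2 : ∀ y, eval (fun j => c j + (Pi.single i₂ (1 : k) : Fin (n + 1) → k) j * y) F = 0 →
      eval (fun j => c j + (Pi.single i₂ (1 : k) : Fin (n + 1) → k) j * y) (xd F i₂) ≠ 0) :
    ∃ x y : k, x ≠ 0 ∧ y ≠ 0 ∧
      eval (fun j => if j = i₁ then x else if j = i₂ then y else c j) F = 0 ∧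
      (a : k) * eval (fun j => if j = i₁ then x else if j = i₂ then y else c j) (xd F i₁) +
        b * eval (fun j => if j = i₁ then x else if j = i₂ then y else c j) (xd F i₂) = 0 := by
  classical
  set G : MvPolynomial (Fin (n + 1)) k := C (a : k) * xd F i₁ + C (b : k) * xd F i₂ with hG
  have hGe : ∀ u, eval u G = a * eval u (xd F i₁) + b * eval u (xd F i₂) := by
    intro u
    rw [hG]
    simp
  have hGh : G.IsHomogeneous e := by
    rw [hG]
    have h1 := (isHomogeneous_C (Fin (n + 1)) (a : k)).mul (xd_hom hF he i₁)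
    have h2 := (isHomogeneous_C (Fin (n + 1)) (b : k)).mul (xd_hom hF he i₂)
    rw [zero_add] at h1 h2
    exact h1.add h2
  have hv := (vertex h02 hT02).1
  have hvG : eval (Pi.single i₂ (1 : k)) G ≠ 0 := by
    rw [hGe]
    have h1 : eval (Pi.single i₂ (1 : k)) (xd F i₁) = 0 := by
      unfold xd
      rw [map_mul, eval_X, Pi.single_eq_of_ne h12, zero_mul]
    rw [h1, mul_zero, zero_add]
    refine mul_ne_zero ?_ (xd_vertex hF he hv)
    exact_mod_cast (by omega : b ≠ 0)
  have hb0 : (b : k) ≠ 0 := by exact_mod_cast (by omega : b ≠ 0)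
  have ha0 : (a : k) ≠ 0 := by exact_mod_cast (by omega : a ≠ 0)
  have hba0 : (b : k) - a ≠ 0 := by
    rw [sub_ne_zero]
    exact_mod_cast (by omega : b ≠ a)
  obtain ⟨x, y, h1, h2⟩ := exists_common_zero c (Pi.single i₁ (1 : k)) (Pi.single i₂ (1 : k)) he hF
    hGh hv hvG (by
      rintro ⟨y, hy1, hy2⟩
      set w : Fin (n + 1) → k := fun j => (Pi.single i₁ (1 : k) : Fin (n + 1) → k) j +
        (Pi.single i₂ (1 : k) : Fin (n + 1) → k) j * y with hw
      have w1 : w i₁ = 1 := by
        rw [hw]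
        simp [Pi.single_eq_of_ne h12]
      have hw0 : w ≠ 0 := by
        intro h
        rw [h] at w1
        exact zero_ne_one w1
      have hwl : ∀ l, l ≠ i₁ → l ≠ i₂ → w l = 0 := by
        intro l h1 h2
        rw [hw]
        simp [Pi.single_eq_of_ne h1, Pi.single_eq_of_ne h2]
      obtain ⟨-, k2, -, k4⟩ := hT12.both hF h12 hw0 hwl hy1
      have h3 := euler_line hF h12 hwl hy1
      rw [hGe] at hy2
      unfold xd at hy2
      rw [map_mul, map_mul, eval_X, eval_X] at hy2
      have h4 : ((b : k) - a) * (w i₂ * eval w (pderiv i₂ F)) = 0 := by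
        linear_combination hy2 - (a : k) * h3
      exact mul_ne_zero hba0 (mul_ne_zero k2 k4) h4)
  have hpt : (fun j => c j + (Pi.single i₁ (1 : k) : Fin (n + 1) → k) j * x +
      (Pi.single i₂ (1 : k) : Fin (n + 1) → k) j * y) =
      fun j => if j = i₁ then x else if j = i₂ then y else c j := by
    funext j
    by_cases h3 : j = i₁
    · subst h3
      simp [hc1, Pi.single_eq_of_ne h12]
    · by_cases h4 : j = i₂
      · subst h4
        simp [h3, hc2, Pi.single_eq_of_ne h3]
      · simp [h3, h4, Pi.single_eq_of_ne h3, Pi.single_eq_of_ne h4]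
  rw [hpt] at h1 h2
  refine ⟨x, y, ?_, ?_, h1, ?_⟩
  · rintro rfl
    have hpt2 : (fun j => if j = i₁ then 0 else if j = i₂ then y else c j) =
        fun j => c j + (Pi.single i₂ (1 : k) : Fin (n + 1) → k) j * y := by
      rw [← hpt]
      funext j
      simp
    rw [hpt2] at h1 h2
    apply g2 y h1
    rw [hGe] at h2
    have h5 : eval (fun j => c j + (Pi.single i₂ (1 : k) : Fin (n + 1) → k) j * y) (xd F i₁) =
        0 := by
      unfold xd
      rw [map_mul, eval_X, hc1, Pi.single_eq_of_ne h12]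
      simp
    rw [h5, mul_zero, zero_add] at h2
    exact (mul_eq_zero.1 h2).resolve_left hb0
  · rintro rfl
    have hpt2 : (fun j => if j = i₁ then x else if j = i₂ then 0 else c j) =
        fun j => c j + (Pi.single i₁ (1 : k) : Fin (n + 1) → k) j * x := by
      rw [← hpt]
      funext j
      simp
    rw [hpt2] at h1 h2
    apply g1 x h1
    rw [hGe] at h2
    have h5 : eval (fun j => c j + (Pi.single i₁ (1 : k) : Fin (n + 1) → k) j * x) (xd F i₂) =
        0 := by
      unfold xd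
      rw [map_mul, eval_X, hc2, Pi.single_eq_of_ne (Ne.symm h12)]
      simp
    rw [h5, mul_zero, add_zero] at h2
    exact (mul_eq_zero.1 h2).resolve_left ha0
  · rw [hGe] at h2
    exact h2

/-- the genericity condition on the constants -/
theorem generic {F : MvPolynomial (Fin (n + 1)) k} {e : ℕ} (hF : F.IsHomogeneous e)
    (he : 1 ≤ e) {i₀ i₁ i₂ : Fin (n + 1)} (h01 : i₀ ≠ i₁) (h02 : i₀ ≠ i₂)
    (hT01 : Trans F i₀ i₁) :
    ∃ R : MvPolynomial (Fin (n + 1)) k, R ≠ 0 ∧ ∀ p : Fin (n + 1) → k, eval p R ≠ 0 → ∀ x,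
      eval (fun j => (if j = i₁ then 0 else if j = i₂ then 0 else p j) +
        (Pi.single i₁ (1 : k) : Fin (n + 1) → k) j * x) F = 0 →
      eval (fun j => (if j = i₁ then 0 else if j = i₂ then 0 else p j) +
        (Pi.single i₁ (1 : k) : Fin (n + 1) → k) j * x) (xd F i₁) ≠ 0 := by
  classical
  have hv := (vertex h01 hT01).1
  have hvx := xd_vertex hF he hv
  set R : MvPolynomial (Fin (n + 1)) k := res F (xd F i₁) e
    (fun j => if j = i₁ then 0 else if j = i₂ then 0 else X j)
    (fun j => C ((Pi.single i₁ (1 : k) : Fin (n + 1) → k) j)) with hR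
  have hRe : ∀ p : Fin (n + 1) → k, eval p R = res F (xd F i₁) e
      (fun j => if j = i₁ then 0 else if j = i₂ then 0 else p j) (Pi.single i₁ (1 : k)) := by
    intro p
    have h := res_map (aeval p : MvPolynomial (Fin (n + 1)) k →ₐ[k] k)
      (fun j => if j = i₁ then 0 else if j = i₂ then 0 else X j)
      (fun j => C ((Pi.single i₁ (1 : k) : Fin (n + 1) → k) j)) F (xd F i₁) e
    rw [← hR] at h
    have h1 : (aeval p) R = eval p R := by rw [← coe_aeval_eq_eval]; rfl
    rw [← h1, h]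
    congr 1
    · funext j
      split_ifs <;> simp
    · funext j
      simp
  refine ⟨R, ?_, ?_⟩
  · intro h0
    have h1 := hRe (Pi.single i₀ 1)
    rw [h0, map_zero] at h1
    obtain ⟨y, hy1, hy2⟩ := (res_eq_zero_iff _ _ hF (xd_hom hF he i₁) hv hvx).1 h1.symm
    refine no_common hF h01 hT01 (u := fun j => (if j = i₁ then 0 else if j = i₂ then 0 else
      (Pi.single i₀ (1 : k) : Fin (n + 1) → k) j) +
      (Pi.single i₁ (1 : k) : Fin (n + 1) → k) j * y) ?_ ?_ hy1 hy2
    · intro h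
      have h3 := congrFun h i₀
      simp [h01, h02] at h3
    · intro l h3 h4
      simp [h3, h4]
  · intro p hp x hx hx2
    apply hp
    rw [hRe]
    exact (res_eq_zero_iff _ _ hF (xd_hom hF he i₁) hv hvx).2 ⟨x, hx, hx2⟩

end alg

end Pool.Agent.X323.FT
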