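import Pool.Agent.X323.FT.Ht
import Pool.Agent.X323.TV.Core

set_option autoImplicit false

/-!
The truncated inequality over a function field fails on the cosets of one-dimensional tori which are
tangent to a component of the divisor.
-/

namespace Pool.Agent.X323.FT

open FF MvPolynomial Pool.Agent.W603.LV Pool.Agent.W603.PV Pool.Agent.X323.TV

variable {k K : Type} [Field k] [Field K] [Algebra k K]

/-- the places off `S` where the point `x` meets the coordinate hyperplanes, `F = 0` or `E = 0` -/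
def meets' {n : ℕ} (S : Set (Place k K)) (e : ℕ) (F : MvPolynomial (Fin (n + 1)) k) (e' : ℕ)
    (E : MvPolynomial (Fin (n + 1)) K) (x : Fin (n + 1) → K) : Set (Place k K) :=
  {P | P ∉ S ∧ ((∃ i, pord P x < P.ord (x i)) ∨ e * pord P x < P.ord (aeval x F) ∨
    e' * pord P x < P.ord (eval x E))}

theorem pow_injective {g : K} (hg : Transcendental k g) : Function.Injective fun m : ℕ => g ^ m := by
  intro a b hab
  by_contra hne
  apply hg
  refine ⟨Polynomial.X ^ a - Polynomial.X ^ b, ?_, by simpa [sub_eq_zero] using hab⟩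
  intro h
  have h1 := congrArg (fun p => Polynomial.coeff p a) h
  simp only [Polynomial.coeff_sub, Polynomial.coeff_X_pow, if_neg hne,
    Polynomial.coeff_zero] at h1
  simp at h1

theorem eventually_ne {g : K} (hg : Transcendental k g) {r : Polynomial K} (hr : r ≠ 0) :
    ∀ᶠ m : ℕ in Filter.atTop, r.eval (g ^ m) ≠ 0 := by
  have h1 : {m : ℕ | r.eval (g ^ m) = 0}.Finite := by
    have h2 : {y : K | r.eval y = 0}.Finite := Polynomial.finite_setOfPred_isRoot hr
    exact h2.preimage (pow_injective hg).injOn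
  have h3 := h1.eventually_cofinite_notMem
  rw [Nat.cofinite_eq_atTop] at h3
  exact h3

theorem eval_map_onCurve {ι : Type*} (u : ι → k) (κ : ι → ℕ) (F : MvPolynomial ι k) (h : K) :
    ((onCurve u κ F).map (algebraMap k K)).eval h =
      aeval (fun i => algebraMap k K (u i) * h ^ κ i) F := by
  induction F using MvPolynomial.induction_on with
  | C a => simp [onCurve]
  | add p q hp hq => rw [map_add, Polynomial.map_add, Polynomial.eval_add, hp, hq, map_add]
  | mul_X p i hp =>
    rw [map_mul, Polynomial.map_mul, Polynomial.eval_mul, hp, map_mul]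
    simp [onCurve]

variable [CharZero k] [IsFF k K] [IsAlgClosed k]

theorem core {n e : ℕ} {F : MvPolynomial (Fin (n + 1)) k} (hF : F.IsHomogeneous e) (he : 1 ≤ e)
    {e' : ℕ} {E : MvPolynomial (Fin (n + 1)) K} (hE : E.IsHomogeneous e')
    {S : Set (Place k K)} {ε C : ℝ} {G : MvPolynomial (Fin (n + 1)) K}
    (hineq : ∀ x : Fin (n + 1) → K, (∀ i, x i ≠ 0) → aeval x F ≠ 0 → eval x E ≠ 0 →
      eval x G ≠ 0 → ((e : ℝ) + e') * (pht k x : ℝ) ≤
        ((meets' S e F e' E x).ncard : ℝ) + ε * (pht k x : ℝ) + C)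
    {u : Fin (n + 1) → k} (hu : ∀ i, u i ≠ 0) (hFu : eval u F = 0) {κ : Fin (n + 1) → ℕ}
    (htan : ∑ i, (κ i : k) * u i * eval u (pderiv i F) = 0) (hnot : onCurve u κ F ≠ 0)
    {j0 : Fin (n + 1)} (hj0 : κ j0 = 0) (hκ : ∀ i, ε * κ i < 1) :
    onCurve (fun i => algebraMap k K (u i)) κ (G * E) = 0 := by
  classical
  by_contra hne
  -- the polynomial `F (u T ^ k) = (T - 1) ^ 2 q (T)`
  set p : Polynomial k := onCurve u κ F with hp
  have hp1 : p.IsRoot 1 := by
    rw [Polynomial.IsRoot, hp, eval_onCurve_one, hFu]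
  obtain ⟨q1, hq1⟩ := Polynomial.dvd_iff_isRoot.2 hp1
  have hq1r : q1.IsRoot 1 := by
    have h1 := derivative_onCurve_one u κ F
    rw [htan, ← hp, hq1, Polynomial.derivative_mul, Polynomial.eval_add, Polynomial.eval_mul,
      Polynomial.eval_mul] at h1
    simpa using h1
  obtain ⟨q, hq⟩ := Polynomial.dvd_iff_isRoot.2 hq1r
  have hpq : p = (Polynomial.X - Polynomial.C 1) ^ 2 * q := by rw [hq1, hq]; ring
  have hq0 : q ≠ 0 := by
    rintro rfl
    exact hnot (by rw [hpq, mul_zero])
  -- the largest exponent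
  obtain ⟨i0, _, hi0⟩ := Finset.exists_max_image (Finset.univ : Finset (Fin (n + 1))) κ
    Finset.univ_nonempty
  set d := κ i0 with hd
  have hkd : ∀ i, κ i ≤ d := fun i => hi0 i (Finset.mem_univ i)
  have hdeg : q.natDegree + 2 ≤ e * d := by
    have h1 : p.natDegree = q.natDegree + 2 := by
      rw [hpq, Polynomial.natDegree_mul (pow_ne_zero _ (Polynomial.X_sub_C_ne_zero 1)) hq0,
        Polynomial.natDegree_pow, Polynomial.natDegree_X_sub_C]
      omega
    rw [← h1]
    exact natDegree_onCurve_le u κ F hF hkd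
  have hd1 : 1 ≤ d := by
    by_contra h
    have : d = 0 := by omega
    rw [this] at hdeg
    omega
  have hdR : (1 : ℝ) ≤ d := by exact_mod_cast hd1
  have heR : (1 : ℝ) ≤ e := by exact_mod_cast he
  have hεd : ε * d < 1 := hκ i0
  have hε1 : ε < 1 := by
    by_contra h
    push Not at h
    nlinarith
  -- the restriction of E
  set A : Polynomial K := onCurve (fun i => algebraMap k K (u i)) κ E with hA
  have hA0 : A ≠ 0 := by
    intro h
    apply hne
    rw [map_mul, ← hA, h, mul_zero]
  have hAdeg : A.natDegree ≤ e' * d := natDegree_onCurve_le _ κ E hE hkd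
  obtain ⟨g, hg⟩ := IsFF.exists_transcendental (k := k) (K := K)
  have hhg : 1 ≤ hgt k g := hgt_pos hg
  set CA : ℤ := ∑ i ∈ A.support, hgt k (A.coeff i) with hCA
  have hg0 : g ≠ 0 := by
    rintro rfl
    exact hg (isAlgebraic_zero)
  -- the choice of m
  have hev : ∀ᶠ m : ℕ in Filter.atTop,
      2 * (hgt k g : ℝ) + CA + C < ((1 - ε * d) * (hgt k g : ℝ)) * m := by
    have hpos : 0 < (1 - ε * d) * (hgt k g : ℝ) := by
      have : (1 : ℝ) ≤ (hgt k g : ℝ) := by exact_mod_cast hhg
      exact mul_pos (by linarith) (by linarith)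
    exact (tendsto_natCast_atTop_atTop.const_mul_atTop hpos).eventually_gt_atTop _
  have hpm : p.map (algebraMap k K) ≠ 0 := by
    rw [Ne, Polynomial.map_eq_zero]
    exact hnot
  obtain ⟨m, hm1, hm2, hm3⟩ := ((eventually_ne hg hne).and ((eventually_ne hg hpm).and hev)).exists
  set h : K := g ^ m with hh
  have hh0 : h ≠ 0 := pow_ne_zero _ hg0
  set x : Fin (n + 1) → K := fun i => algebraMap k K (u i) * h ^ κ i with hx
  have hu' : ∀ i, algebraMap k K (u i) ≠ 0 := fun i => by
    rw [Ne, map_eq_zero]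
    exact hu i
  have hx0 : ∀ i, x i ≠ 0 := fun i => mul_ne_zero (hu' i) (pow_ne_zero _ hh0)
  have hFx : aeval x F = (h - 1) ^ 2 * (q.map (algebraMap k K)).eval h := by
    rw [hx, ← eval_map_onCurve, ← hp, hpq]
    simp
  have hFx0 : aeval x F ≠ 0 := by
    rw [hx, ← eval_map_onCurve, ← hp]
    exact hm2
  have hGE : eval x G ≠ 0 ∧ eval x E ≠ 0 := by
    rw [eval_onCurve, map_mul] at hm1
    exact ⟨left_ne_zero_of_mul hm1, right_ne_zero_of_mul hm1⟩
  have hEx : eval x E = A.eval h := by
    rw [hA, eval_onCurve]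
  have hmain := hineq x hx0 hFx0 hGE.2 hGE.1
  -- orders of the coordinates
  have hordx : ∀ (P : Place k K) (i : Fin (n + 1)), P.ord (x i) = κ i * (m * P.ord g) := by
    intro P i
    change P.ord (algebraMap k K (u i) * h ^ κ i) = _
    rw [P.ord_mul (hu' i) (pow_ne_zero _ hh0), P.ord_const (hu i), P.ord_pow, hh, P.ord_pow]
    ring
  have hheight : hgt k h = m * hgt k g := hgt_pow hg0 m
  -- the height of x
  have hlow : (d : ℤ) * (m * hgt k g) ≤ pht k x := by
    refine le_trans ?_ (hgt_le_pht x (hx0 i0) (hx0 j0))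
    have h1 : x i0 / x j0 = algebraMap k K (u i0 / u j0) * h ^ d := by
      change algebraMap k K (u i0) * h ^ κ i0 / (algebraMap k K (u j0) * h ^ κ j0) = _
      rw [hj0, pow_zero, mul_one, ← hd, map_div₀]
      field_simp
    have hc : u i0 / u j0 ≠ 0 := div_ne_zero (hu i0) (hu j0)
    have h2 := hgt_mul (k := k) (f := algebraMap k K (u i0 / u j0)⁻¹)
      (g := algebraMap k K (u i0 / u j0) * h ^ d)
      (by rw [Ne, map_eq_zero]; exact inv_ne_zero hc)
      (mul_ne_zero (by rw [Ne, map_eq_zero]; exact hc) (pow_ne_zero _ hh0))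
    rw [← mul_assoc, ← map_mul, inv_mul_cancel₀ hc, map_one, one_mul, hgt_const, zero_add,
      hgt_pow hh0, hheight] at h2
    rw [h1]
    exact h2
  -- the truncated counting function
  have hcount : ((meets' S e F e' E x).ncard : ℤ) ≤ 2 * hgt k g + m * hgt k g +
      q.natDegree * (m * hgt k g) + (A.natDegree * (m * hgt k g) + CA) := by
    have z1 := zeros_ncard (k := k) (y := g)
    have z2 := zeros_ncard (k := k) (y := g⁻¹)
    have z3 := zeros_ncard (k := k) (y := h - 1)
    have z4 := zeros_ncard (k := k) (y := (q.map (algebraMap k K)).eval h)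
    have z5 := zeros_ncard (k := k) (y := A.eval h)
    have hsub : meets' S e F e' E x ⊆ {P | 0 < P.ord g} ∪ {P | 0 < P.ord g⁻¹} ∪
        {P | 0 < P.ord (h - 1)} ∪ {P | 0 < P.ord ((q.map (algebraMap k K)).eval h)} ∪
        {P | 0 < P.ord (A.eval h)} := by
      rintro P ⟨-, hP⟩
      by_cases hPg : P.ord g = 0
      · have hx1 : ∀ i, P.ord (x i) = 0 := fun i => by rw [hordx, hPg]; ring
        have hmin : pord P x = 0 := by
          obtain ⟨j, hj, hj'⟩ := exists_pord P ⟨j0, hx0 j0⟩
          rw [← hj', hx1]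
        rw [hmin] at hP
        simp only [mul_zero] at hP
        rcases hP with ⟨i, hi⟩ | hP | hP
        · rw [hx1] at hi
          exact absurd hi (lt_irrefl _)
        · have hne1 : (h - 1) ^ 2 ≠ 0 ∧ (q.map (algebraMap k K)).eval h ≠ 0 := by
            rw [hFx] at hFx0
            exact ⟨left_ne_zero_of_mul hFx0, right_ne_zero_of_mul hFx0⟩
          rw [hFx, P.ord_mul hne1.1 hne1.2, P.ord_pow] at hP
          by_cases h1 : 0 < P.ord (h - 1)
          · exact Or.inl (Or.inl (Or.inr h1))
          · refine Or.inl (Or.inr ?_)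
            change 0 < P.ord ((q.map (algebraMap k K)).eval h)
            push_cast at hP
            omega
        · rw [hEx] at hP
          exact Or.inr hP
      · refine Or.inl (Or.inl (Or.inl ?_))
        rcases lt_or_gt_of_ne hPg with h1 | h1
        · right
          change 0 < P.ord g⁻¹
          rw [P.ord_inv]
          omega
        · exact Or.inl h1
    have hfin : ({P : Place k K | 0 < P.ord g} ∪ {P | 0 < P.ord g⁻¹} ∪
        {P | 0 < P.ord (h - 1)} ∪ {P | 0 < P.ord ((q.map (algebraMap k K)).eval h)} ∪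
        {P | 0 < P.ord (A.eval h)}).Finite :=
      (((z1.1.union z2.1).union z3.1).union z4.1).union z5.1
    have h1 := Set.ncard_le_ncard hsub hfin
    have u1 := Set.ncard_union_le ({P : Place k K | 0 < P.ord g} ∪ {P | 0 < P.ord g⁻¹} ∪
        {P | 0 < P.ord (h - 1)} ∪ {P | 0 < P.ord ((q.map (algebraMap k K)).eval h)})
        {P | 0 < P.ord (A.eval h)}
    have u2 := Set.ncard_union_le ({P : Place k K | 0 < P.ord g} ∪ {P | 0 < P.ord g⁻¹} ∪
        {P | 0 < P.ord (h - 1)}) {P | 0 < P.ord ((q.map (algebraMap k K)).eval h)}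
    have u3 := Set.ncard_union_le ({P : Place k K | 0 < P.ord g} ∪ {P | 0 < P.ord g⁻¹})
        {P | 0 < P.ord (h - 1)}
    have u4 := Set.ncard_union_le {P : Place k K | 0 < P.ord g} {P | 0 < P.ord g⁻¹}
    have v1 : hgt k g⁻¹ = hgt k g := hgt_inv g
    have v2 : hgt k (h - 1) ≤ m * hgt k g := by
      have := hgt_poly_const (k := k) h (Polynomial.X - Polynomial.C 1)
      rw [Polynomial.natDegree_X_sub_C, hheight] at this
      simpa using this
    have v3 := hgt_poly_const (k := k) h q
    have v4 := hgt_poly (k := k) h A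
    rw [hheight] at v3 v4
    have w1 := z1.2
    have w2 := z2.2
    have w3 := z3.2
    have w4 := z4.2
    have w5 := z5.2
    have t1 : ((meets' S e F e' E x).ncard : ℤ) ≤
        ({P : Place k K | 0 < P.ord g}.ncard : ℤ) + ({P : Place k K | 0 < P.ord g⁻¹}.ncard : ℤ) +
        ({P : Place k K | 0 < P.ord (h - 1)}.ncard : ℤ) +
        ({P : Place k K | 0 < P.ord ((q.map (algebraMap k K)).eval h)}.ncard : ℤ) +
        ({P : Place k K | 0 < P.ord (A.eval h)}.ncard : ℤ) := by
      exact_mod_cast h1.trans (by omega)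
    rw [v1] at w2
    linarith
  -- the contradiction
  have hcR : ((meets' S e F e' E x).ncard : ℝ) ≤ 2 * (hgt k g : ℝ) + m * (hgt k g : ℝ) +
      q.natDegree * (m * (hgt k g : ℝ)) + (A.natDegree * (m * (hgt k g : ℝ)) + CA) := by
    exact_mod_cast hcount
  have hlR : (d : ℝ) * (m * (hgt k g : ℝ)) ≤ (pht k x : ℝ) := by exact_mod_cast hlow
  have hgR : (1 : ℝ) ≤ (hgt k g : ℝ) := by exact_mod_cast hhg
  have hmg : 0 ≤ (m : ℝ) * (hgt k g : ℝ) := by positivity
  have hqR : (q.natDegree : ℝ) ≤ (e : ℝ) * d - 2 := by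
    have : ((q.natDegree + 2 : ℕ) : ℝ) ≤ ((e * d : ℕ) : ℝ) := by exact_mod_cast hdeg
    push_cast at this
    linarith
  have hAR : (A.natDegree : ℝ) ≤ (e' : ℝ) * d := by exact_mod_cast hAdeg
  have he'0 : (0 : ℝ) ≤ e' := Nat.cast_nonneg _
  have k1 : ((e : ℝ) + e' - ε) * ((d : ℝ) * (m * (hgt k g : ℝ))) ≤
      ((e : ℝ) + e' - ε) * (pht k x : ℝ) :=
    mul_le_mul_of_nonneg_left hlR (by linarith)
  have k2 := mul_le_mul_of_nonneg_right hqR hmg
  have k3 := mul_le_mul_of_nonneg_right hAR hmg
  nlinarith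

end Pool.Agent.X323.FT
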