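import Pool.Agent.W603.PV.Hgt

set_option autoImplicit false

/-!
Heights of the values of one-variable polynomials over function fields; heights of points.
-/

namespace Pool.Agent.X323.FT

open FF Pool.Agent.W603.LV Pool.Agent.W603.PV

variable {k K : Type} [Field k] [Field K] [Algebra k K]

/-- pole order of the value of a polynomial -/
theorem ge_poly (P : Place k K) (h : K) (m : ℕ) (hm : Ge P (-(m : ℤ)) h) (q : Polynomial K)
    (M : ℕ) (hM : ∀ i ∈ q.support, Ge P (-(M : ℤ)) (q.coeff i)) :
    Ge P (-((q.natDegree * m + M : ℕ) : ℤ)) (q.eval h) := by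
  rw [Polynomial.eval_eq_sum, Polynomial.sum]
  refine Ge.sum _ _ fun i hi => ?_
  refine ((hM i hi).mul (hm.pow i)).mono ?_
  have h1 : i ≤ q.natDegree := Polynomial.le_natDegree_of_mem_supp i hi
  have h2 : i * m ≤ q.natDegree * m := Nat.mul_le_mul_right _ h1
  have h3 : ((i * m : ℕ) : ℤ) ≤ ((q.natDegree * m : ℕ) : ℤ) := by exact_mod_cast h2
  push_cast at h3 ⊢
  linarith

variable [CharZero k] [IsFF k K]

/-- height of the value of a polynomial -/
theorem hgt_poly (h : K) (q : Polynomial K) :
    hgt k (q.eval h) ≤ q.natDegree * hgt k h + ∑ i ∈ q.support, hgt k (q.coeff i) := by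
  classical
  obtain ⟨T1, hT1⟩ := exists_supp (k := k) (Finset.univ : Finset (Fin 2)) ![h, q.eval h]
  obtain ⟨T2, hT2⟩ := exists_supp (k := k) q.support (fun i => q.coeff i)
  set T := T1 ∪ T2 with hT
  have h0 : ∀ P : Place k K, P.ord (q.eval h) ≠ 0 → P ∈ T := fun P hP =>
    Finset.mem_union_left _ (hT1 1 (Finset.mem_univ _) P hP)
  have h1 : ∀ P : Place k K, P.ord h ≠ 0 → P ∈ T := fun P hP =>
    Finset.mem_union_left _ (hT1 0 (Finset.mem_univ _) P hP)
  have h1' : ∀ i ∈ q.support, ∀ P : Place k K, P.ord (q.coeff i) ≠ 0 → P ∈ T :=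
    fun i hi P hP => Finset.mem_union_right _ (hT2 i hi P hP)
  rw [hgt_finset _ T h0, hgt_finset _ T h1, Finset.mul_sum,
    Finset.sum_congr rfl fun i hi => hgt_finset _ T (h1' i hi),
    Finset.sum_comm (s := q.support), ← Finset.sum_add_distrib]
  refine Finset.sum_le_sum fun P _ => ?_
  have h2 := ge_poly P h (-P.ord h).toNat (Or.inr (by omega)) q
    (∑ i ∈ q.support, (-P.ord (q.coeff i)).toNat) (by
      intro i hi
      right
      have h3 : (-P.ord (q.coeff i)).toNat ≤ ∑ i ∈ q.support, (-P.ord (q.coeff i)).toNat :=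
        Finset.single_le_sum (f := fun i => (-P.ord (q.coeff i)).toNat)
          (fun _ _ => Nat.zero_le _) hi
      omega)
  have h3 : max (-P.ord h) 0 = ((-P.ord h).toNat : ℤ) := by omega
  have h3' : ∀ i, max (-P.ord (q.coeff i)) 0 = ((-P.ord (q.coeff i)).toNat : ℤ) :=
    fun i => by omega
  rw [h3, Finset.sum_congr rfl fun i _ => h3' i]
  have h5 : ((q.natDegree * (-P.ord h).toNat + ∑ i ∈ q.support, (-P.ord (q.coeff i)).toNat : ℕ) :
      ℤ) = q.natDegree * ((-P.ord h).toNat : ℤ) +
        ∑ i ∈ q.support, ((-P.ord (q.coeff i)).toNat : ℤ) := by push_cast; rfl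
  have h4 : (0 : ℤ) ≤ ((q.natDegree * (-P.ord h).toNat +
      ∑ i ∈ q.support, (-P.ord (q.coeff i)).toNat : ℕ) : ℤ) := by positivity
  rw [← h5]
  rcases h2 with h2 | h2
  · rw [h2, P.ord_zero]; simpa using h4
  · apply max_le _ h4
    omega

omit [CharZero k] [IsFF k K] in
theorem hgt_const (c : k) : hgt k (algebraMap k K c) = 0 := by
  by_cases hc : c = 0
  · subst hc
    rw [hgt_finset (k := k) (algebraMap k K 0) ∅ (fun P h => absurd (by rw [map_zero, P.ord_zero]) h)]
    rfl
  · rw [hgt_finset (k := k) (algebraMap k K c) ∅ (fun P h => absurd (P.ord_const hc) h)]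
    rfl

/-- height of the value of a polynomial with constant coefficients -/
theorem hgt_poly_const (h : K) (q : Polynomial k) :
    hgt k ((q.map (algebraMap k K)).eval h) ≤ q.natDegree * hgt k h := by
  refine (hgt_poly (k := k) h (q.map (algebraMap k K))).trans ?_
  rw [Finset.sum_eq_zero (fun i _ => by rw [Polynomial.coeff_map, hgt_const]), add_zero,
    Polynomial.natDegree_map]

variable [IsAlgClosed k]

/-- the zeros of a function are finitely many, at most as many as its height -/
theorem zeros_ncard {y : K} : {P : Place k K | 0 < P.ord y}.Finite ∧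
    ({P : Place k K | 0 < P.ord y}.ncard : ℤ) ≤ hgt k y := by
  classical
  have hfin : {P : Place k K | 0 < P.ord y}.Finite :=
    (finite_support (k := k) y).subset fun P hP => ne_of_gt hP
  refine ⟨hfin, ?_⟩
  rw [Set.ncard_eq_toFinset_card _ hfin]
  have h1 := card_poles (k := k) (Finset.univ : Finset (Fin 1)) (fun _ => y⁻¹) hfin.toFinset
    (fun P hP => ⟨0, Finset.mem_univ _, by
      rw [P.ord_inv]
      have : 0 < P.ord y := by simpa using hP
      omega⟩)
  rw [hgt_inv] at h1
  simpa using h1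

/-- the height of a quotient of coordinates is at most the height of the point -/
theorem hgt_le_pht {n : ℕ} (f : Fin (n + 1) → K) {j l : Fin (n + 1)} (hj : f j ≠ 0)
    (hl : f l ≠ 0) : hgt k (f j / f l) ≤ pht k f := by
  classical
  obtain ⟨T, hT⟩ := exists_supp (k := k) Finset.univ f
  have h1 : ∀ j, ∀ P : Place k K, P.ord (f j) ≠ 0 → P ∈ T := fun j => hT j (Finset.mem_univ j)
  have h1' : ∀ P : Place k K, P.ord (f j / f l) ≠ 0 → P ∈ T := by
    intro P hP
    by_contra hcon
    apply hP
    have h2 : P.ord (f j) = 0 := by by_contra h; exact hcon (h1 j P h)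
    have h3 : P.ord (f l) = 0 := by by_contra h; exact hcon (h1 l P h)
    rw [P.ord_div hj hl, h2, h3]; rfl
  have h2 : pht k f = ∑ P ∈ T, (- pord P f) := by
    unfold pht
    rw [finsum_eq_sum_of_support_subset (s := T), Finset.sum_neg_distrib]
    intro P hP
    by_contra hcon
    apply hP
    obtain ⟨j, hj, h⟩ := exists_pord P ⟨l, hl⟩
    simp only
    rw [← h]
    by_contra h'; exact hcon (h1 j P h')
  have h3 : ∑ P ∈ T, P.ord (f l) = 0 := sum_ord_finset _ T (h1 l)
  have h4 : ∑ P ∈ T, (- pord P f) = ∑ P ∈ T, (- pord P f + P.ord (f l)) := by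
    rw [Finset.sum_add_distrib, h3, add_zero]
  rw [h2, h4, hgt_finset _ T h1']
  refine Finset.sum_le_sum fun P _ => ?_
  have h5 := pord_le P hj
  have h6 := pord_le P hl
  rw [P.ord_div hj hl]
  refine max_le ?_ ?_ <;> omega

/-- a transcendental function has positive height -/
theorem hgt_pos {g : K} (hg : Transcendental k g) : 1 ≤ hgt k g := by
  by_contra h
  push Not at h
  have h0 := hgt_nonneg (k := k) g
  obtain ⟨c, hc⟩ := const_of_hgt (k := k) (f := g) (by omega)
  apply hg
  rw [hc]
  exact isAlgebraic_algebraMap c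

end Pool.Agent.X323.FT
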